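import Pool.Agent.P8H9.RP.NBP

/-! Random Euler products whose local variances are large on a set of primes with a divergent sum of
reciprocals. -/

set_option autoImplicit false

open Filter Topology Finset MeasureTheory ProbabilityTheory

namespace Pool.Agent.P8H9.RP

open Pool.Agent.P8H9.RD

variable {Ω : Type*} [MeasurableSpace Ω]

/-- the local data of a random Euler product -/
structure LocP (μ : Measure Ω) (T : Nat.Primes → ℕ → Ω → ℝ) (b v : ℝ) (S : Finset Nat.Primes)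
    (P : Set Nat.Primes) : Prop where
  meas : ∀ p j, Measurable (T p j)
  ind : ∀ j, iIndepFun (fun p => T p j) μ
  pos : 0 < b
  bd : ∀ p j ω, |T p (j + 1) ω| ≤ b * (Real.sqrt (p : ℕ)) ^ (j + 1)
  mean : ∀ p, |∫ ω, T p 1 ω ∂μ| ≤ b
  vpos : 0 < v
  var : ∀ p ∉ S, p ∈ P → v * (p : ℕ) ≤ ∫ ω, (T p 1 ω - ∫ ω', T p 1 ω' ∂μ) ^ 2 ∂μ
  zero : ∀ p ∉ S, p ∉ P → ∀ ω, T p 1 ω = 0
  div : ¬ Summable fun p : P => 1 / (((p : Nat.Primes) : ℕ) : ℝ)

variable {μ : Measure Ω} [IsProbabilityMeasure μ] {T : Nat.Primes → ℕ → Ω → ℝ} {b v : ℝ}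
  {S : Finset Nat.Primes} {P : Set Nat.Primes}

omit [IsProbabilityMeasure μ] in
theorem LocP.bdd (h : LocP μ T b v S P) (ω : Ω) : Bdd (co T ω) b := ⟨h.pos.le, fun p j => h.bd p j ω⟩

theorem LocP.int (h : LocP μ T b v S P) (j : ℕ) (p : Nat.Primes) : Integrable (T p (j + 1)) μ :=
  Integrable.of_bound (C := b * (Real.sqrt (p : ℕ)) ^ (j + 1)) (h.meas p _).aestronglyMeasurable
    (Eventually.of_forall fun ω => h.bd p j ω)

theorem LocP.mn_bd (h : LocP μ T b v S P) (j : ℕ) (p : Nat.Primes) :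
    |mn μ T (j + 1) p| ≤ b * (Real.sqrt (p : ℕ)) ^ (j + 1) := by
  have h1 := norm_integral_le_of_norm_le_const (μ := μ) (f := T p (j + 1))
    (C := b * (Real.sqrt (p : ℕ)) ^ (j + 1)) (Eventually.of_forall fun ω => h.bd p j ω)
  rw [probReal_univ, mul_one] at h1
  exact h1

theorem LocP.cen (h : LocP μ T b v S P) (j : ℕ) : Cen μ (nX μ T (j + 1)) (2 * b) where
  meas p := ((h.meas p (j + 1)).sub_const _).div_const _
  ind := (h.ind (j + 1)).comp
    (fun p x => (x - mn μ T (j + 1) p) / Real.sqrt (p : ℕ) ^ (j + 1))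
    fun p => (measurable_id.sub_const _).div_const _
  pos := by have := h.pos; positivity
  bd p ω := by
    have h0 : 0 < Real.sqrt (p : ℕ) ^ (j + 1) := pow_pos (lt_of_lt_of_le one_pos (sqrt_one_le p)) _
    unfold nX
    rw [abs_div, abs_of_pos h0, div_le_iff₀ h0]
    refine (abs_sub _ _).trans ?_
    have h1 := h.bd p j ω
    have h2 := h.mn_bd j p
    linarith
  mean p := by
    unfold nX
    rw [integral_div, integral_sub (h.int j p) (integrable_const _), integral_const]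
    simp [mn]

/-- summable series of the random part -/
theorem LocP.sumX (h : LocP μ T b v S P) (j : ℕ) (ω : Ω) {z : ℂ} (hz : 1 < z.re) :
    Summable fun p => (nX μ T (j + 1) p ω : ℂ) * ((p : ℕ) : ℂ) ^ (-z) :=
  bdd_summable (m := fun p => nX μ T (j + 1) p ω) (fun p => (h.cen j).bd p ω) hz

/-- the decomposition -/
theorem LocP.decomp (h : LocP μ T b v S P) (ω : Ω) {z : ℂ} (hz : 1 < z.re) :
    -logL (co T ω) (z + 1 / 2) = ∑' p : Nat.Primes, (nX μ T 1 p ω : ℂ) * ((p : ℕ) : ℂ) ^ (-z) +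
      MM μ T z + 1 / 2 * ∑' p : Nat.Primes, (nX μ T 2 p ω : ℂ) * ((p : ℕ) : ℂ) ^ (-(2 * z)) +
      ∑' p, Dr (co T ω) 2 p (z + 1 / 2) := by
  have hb := h.bdd ω
  have hre : (z + 1 / 2).re = z.re + 1 / 2 := by simp
  have hs : 3 / 2 < (z + 1 / 2).re := by rw [hre]; linarith
  have e0 : ∀ p, Dr (co T ω) 0 p (z + 1 / 2) = tm (co T ω) p 0 (z + 1 / 2) +
      (tm (co T ω) p 1 (z + 1 / 2) + Dr (co T ω) 2 p (z + 1 / 2)) := by
    intro p
    rw [Dr_succ hb 0 p (by linarith), Dr_succ hb 1 p (by linarith)]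
  have s0 : Summable fun p => tm (co T ω) p 0 (z + 1 / 2) :=
    summable_tmp hb 0 (by push_cast; linarith)
  have s1 : Summable fun p => tm (co T ω) p 1 (z + 1 / 2) :=
    summable_tmp hb 1 (by push_cast; linarith)
  have s2 : Summable fun p => Dr (co T ω) 2 p (z + 1 / 2) :=
    summable_Dr hb 2 (by push_cast; linarith)
  unfold logL
  rw [neg_neg]
  simp_rw [e0]
  rw [s0.tsum_add (s1.add s2), s1.tsum_add s2]
  -- the first sum
  have x1 := h.sumX 0 ω hz
  have t0 : ∀ p, tm (co T ω) p 0 (z + 1 / 2) = (nX μ T 1 p ω : ℂ) * ((p : ℕ) : ℂ) ^ (-z) +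
      (mn μ T 1 p : ℂ) * px p (z + 1 / 2) := by
    intro p
    unfold tm co
    have := part1 (μ := μ) (T := T) 1 ω p (px p (z + 1 / 2))
    rw [pow_one, ← px_shift] at this
    rw [← this]
    simp
  have m0 : Summable fun p => (mn μ T 1 p : ℂ) * px p (z + 1 / 2) := by
    have := s0.sub x1
    refine this.congr fun p => ?_
    rw [t0]
    ring
  have x2 : Summable fun p => (nX μ T 2 p ω : ℂ) * ((p : ℕ) : ℂ) ^ (-(2 * z)) :=
    h.sumX 1 ω (by
      have : (2 * z).re = 2 * z.re := by simp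
      rw [this]
      linarith)
  have t1 : ∀ p, tm (co T ω) p 1 (z + 1 / 2) =
      1 / 2 * ((nX μ T 2 p ω : ℂ) * ((p : ℕ) : ℂ) ^ (-(2 * z))) +
      (mn μ T 2 p : ℂ) / 2 * px p (z + 1 / 2) ^ 2 := by
    intro p
    unfold tm co
    have := part1 (μ := μ) (T := T) 2 ω p (px p (z + 1 / 2) ^ 2)
    rw [← px_double] at this
    have e2 : (T p (1 + 1) ω : ℂ) / ((1 : ℕ) + 1 : ℂ) * px p (z + 1 / 2) ^ (1 + 1) =
        1 / 2 * ((T p 2 ω : ℂ) * px p (z + 1 / 2) ^ 2) := by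
      norm_num
      ring
    rw [e2, this]
    ring
  have m1 : Summable fun p => (mn μ T 2 p : ℂ) / 2 * px p (z + 1 / 2) ^ 2 := by
    have := s1.sub (x2.mul_left (1 / 2))
    refine this.congr fun p => ?_
    rw [t1]
    ring
  simp_rw [t0, t1]
  rw [x1.tsum_add m0, (x2.mul_left (1 / 2)).tsum_add m1, tsum_mul_left, MM]
  ring

theorem LocP.log_split (h : LocP μ T b v S P) (ω : Ω) {s : ℂ} (hs : 3 / 2 < s.re) :
    logL (co T ω) s = -(∑' p : Nat.Primes, (nX μ T 1 p ω : ℂ) * ((p : ℕ) : ℂ) ^ (-(s - 1 / 2))) -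
      ∑' p : Nat.Primes, (mn μ T 1 p : ℂ) * px p s - ∑' p, Dr (co T ω) 1 p s := by
  have hb := h.bdd ω
  have hre : (s - 1 / 2).re = s.re - 1 / 2 := by simp
  have e0 : ∀ p, Dr (co T ω) 0 p s = tm (co T ω) p 0 s + Dr (co T ω) 1 p s := fun p =>
    Dr_succ hb 0 p (by linarith)
  have s0 : Summable fun p => tm (co T ω) p 0 s := summable_tmp hb 0 (by push_cast; linarith)
  have s1 : Summable fun p => Dr (co T ω) 1 p s := summable_Dr hb 1 (by push_cast; linarith)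
  have x1 := h.sumX 0 ω (z := s - 1 / 2) (by rw [hre]; linarith)
  have t0 : ∀ p, tm (co T ω) p 0 s = (nX μ T 1 p ω : ℂ) * ((p : ℕ) : ℂ) ^ (-(s - 1 / 2)) +
      (mn μ T 1 p : ℂ) * px p s := by
    intro p
    unfold tm co
    have := part1 (μ := μ) (T := T) 1 ω p (px p s)
    have e : (Real.sqrt (p : ℕ) : ℂ) ^ 1 * px p s = ((p : ℕ) : ℂ) ^ (-(s - 1 / 2)) := by
      rw [px_shift, sub_add_cancel, pow_one]
    rw [e] at this
    rw [← this]
    simp
  have m0 : Summable fun p => (mn μ T 1 p : ℂ) * px p s := by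
    have := s0.sub x1
    refine this.congr fun p => ?_
    rw [t0]
    ring
  unfold logL
  simp_rw [e0]
  rw [s0.tsum_add s1]
  simp_rw [t0]
  rw [x1.tsum_add m0]
  ring

/-- **continuation** -/
theorem LocP.cont (h : LocP μ T b v S P) : ∀ᵐ ω ∂μ, ∃ G : ℂ → ℂ, DifferentiableOn ℂ G (HP 1) ∧
    ∀ s, 3 / 2 < s.re → G s = logL (co T ω) s := by
  filter_upwards [(h.cen 0).continues] with ω hω
  obtain ⟨F, hF1, hF2⟩ := hω
  refine ⟨fun s => -F (s - 1 / 2) - ∑' p : Nat.Primes, (mn μ T 1 p : ℂ) * px p s -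
    ∑' p, Dr (co T ω) 1 p s, ?_, fun s hs => ?_⟩
  · refine DifferentiableOn.sub (DifferentiableOn.sub (DifferentiableOn.neg ?_) ?_) ?_
    · refine hF1.comp (differentiableOn_id.sub_const _) fun s hs => ?_
      have h1 : 1 < s.re := hs
      have h2 : (s - 1 / 2).re = s.re - 1 / 2 := by simp
      change 1 / 2 < (s - 1 / 2).re
      rw [h2]
      linarith
    · exact bdd_diff (b := b) fun p => h.mean p
    · refine (sum_Dr_diff (h.bdd ω) 1).mono (HP_mono ?_)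
      push_cast
      norm_num
  · have h2 : (s - 1 / 2).re = s.re - 1 / 2 := by simp
    rw [h.log_split ω hs]
    simp only
    rw [hF2 _ (by rw [h2]; linarith)]

/-- **natural boundary** -/
theorem LocP.nat (h : LocP μ T b v S P) : ∀ᵐ ω ∂μ, ∀ (w : ℂ) (r : ℝ), w.re = 1 → 0 < r →
    ¬ ∃ F : ℂ → ℂ, DifferentiableOn ℂ F (HP 1 ∪ Metric.ball w r) ∧
      ∀ s, 3 / 2 < s.re → F s = Complex.exp (logL (co T ω) s) := by
  set ε : ℕ → ℝ := fun n => min (1 / 8) ((1 / ((n : ℝ) + 1)) ^ 2 / 4) with hε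
  have hε0 : ∀ n, 0 < ε n := fun n => lt_min (by norm_num) (by positivity)
  have hX0 : ∀ p ∉ S, p ∉ P → ∀ ω, nX μ T 1 p ω = 0 := by
    intro p hp hpP ω
    have h1 := h.zero p hp hpP
    unfold nX mn
    simp [h1]
  have hv : ∀ p ∉ S, p ∈ P → v ≤ ∫ ω, nX μ T 1 p ω ^ 2 ∂μ := by
    intro p hp hpP
    have h1 := h.var p hp hpP
    have hp0 : (0 : ℝ) < (p : ℕ) := by exact_mod_cast p.2.pos
    have e : ∀ ω, nX μ T 1 p ω ^ 2 = (T p 1 ω - ∫ ω', T p 1 ω' ∂μ) ^ 2 / (p : ℕ) := by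
      intro ω
      unfold nX mn
      rw [pow_one, div_pow, Real.sq_sqrt hp0.le]
    simp_rw [e]
    rw [integral_div, le_div_iff₀ hp0]
    exact h1
  have hnull : ∀ᵐ ω ∂μ, ∀ (q : ℚ) (n : ℕ), ¬ ∃ F : ℂ → ℂ,
      DifferentiableOn ℂ F (Metric.ball ((1 + (q : ℝ) * Complex.I : ℂ) + 1) (3 / 2 + ε n)) ∧
      ∀ᶠ z in 𝓝 ((1 + (q : ℝ) * Complex.I : ℂ) + 1),
        F z = ∑' p : Nat.Primes, (nX μ T 1 p ω : ℂ) * ((p : ℕ) : ℂ) ^ (-z) + MM μ T z := by
    rw [ae_all_iff]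
    intro q
    rw [ae_all_iff]
    intro n
    refine no_contP (h.cen 0) h.vpos h.div hv hX0 (MM μ T) ?_ ?_
    · simp
      norm_num
    · have := hε0 n
      linarith
  filter_upwards [hnull, h.cont, (h.cen 1).continues] with ω h1 h2 h3
  obtain ⟨G, hG1, hG2⟩ := h2
  obtain ⟨F2, hF2, hF2'⟩ := h3
  rintro w r hw hr ⟨F, hF1, hF3⟩
  -- `F` is an exponential on the half plane
  have hFG : ∀ s ∈ HP 1, F s = Complex.exp (G s) := by
    have e1 : AnalyticOnNhd ℂ F (HP 1) := (hF1.mono Set.subset_union_left).analyticOnNhd (isOpen_HP 1)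
    have e2 : AnalyticOnNhd ℂ (fun s => Complex.exp (G s)) (HP 1) :=
      (hG1.cexp).analyticOnNhd (isOpen_HP 1)
    have h2m : (2 : ℂ) ∈ HP 1 := by
      change (1 : ℝ) < (2 : ℂ).re
      norm_num
    refine e1.eqOn_of_preconnected_of_eventuallyEq e2 (HP_preconn 1) h2m ?_
    have h2m' : (2 : ℂ) ∈ HP (3 / 2) := by
      change (3 / 2 : ℝ) < (2 : ℂ).re
      norm_num
    filter_upwards [(isOpen_HP (3 / 2)).mem_nhds h2m'] with s hs
    rw [hF3 s hs, hG2 s hs]
  obtain ⟨q, n, hq1, hq2⟩ := find_disc hw hr hF1 hFG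
  set w' : ℂ := 1 + (q : ℝ) * Complex.I with hw'
  set r' : ℝ := 1 / ((n : ℝ) + 1) with hr'
  have hw're : w'.re = 1 := by simp [hw']
  have hr'0 : 0 < r' := by positivity
  have hε1 : ε n ≤ 1 / 8 := min_le_left _ _
  have hε2 : 4 * ε n ≤ r' ^ 2 := by
    have : ε n ≤ r' ^ 2 / 4 := min_le_right _ _
    linarith
  have hgeo := fun s hs => geom (s := s) hw're (hε0 n) hε1 hε2 hr'0 hs
  have hFb : DifferentiableOn ℂ F (Metric.ball (w' + 3 / 2) (3 / 2 + ε n)) :=
    hF1.mono fun s hs => (hgeo s hs).2.imp id fun hh => hq1 hh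
  have hF0 : ∀ s ∈ Metric.ball (w' + 3 / 2) (3 / 2 + ε n), F s ≠ 0 := by
    intro s hs
    rcases (hgeo s hs).2 with h5 | h5
    · rw [hFG s h5]
      exact Complex.exp_ne_zero _
    · exact hq2 s h5
  have hball : Metric.ball (w' + 3 / 2) 1 ⊆ HP (3 / 2) := by
    intro s hs
    rw [Metric.mem_ball, dist_eq_norm] at hs
    have h6 := Complex.abs_re_le_norm (s - (w' + 3 / 2))
    have h7 : (s - (w' + 3 / 2)).re = s.re - 5 / 2 := by
      simp [hw're]
      ring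
    rw [h7] at h6
    change 3 / 2 < s.re
    have := abs_lt.1 (lt_of_le_of_lt h6 hs)
    linarith [this.1]
  obtain ⟨P, hP1, hP2⟩ := disc_log (G := G) one_pos (by have := hε0 n; linarith) hFb hF0
    (hG1.mono (hball.trans (HP_mono (by norm_num))))
    (fun s hs => hFG s (HP_mono (by norm_num) (hball hs)))
  have hbz : ∀ z ∈ Metric.ball (w' + 1) (3 / 2 + ε n), z + 1 / 2 ∈
      Metric.ball (w' + 3 / 2) (3 / 2 + ε n) := by
    intro z hz
    rw [Metric.mem_ball, dist_eq_norm] at hz ⊢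
    have : z + 1 / 2 - (w' + 3 / 2) = z - (w' + 1) := by ring
    rwa [this]
  have hbre : ∀ z ∈ Metric.ball (w' + 1) (3 / 2 + ε n), 3 / 8 < z.re := by
    intro z hz
    have h8 := (hgeo _ (hbz z hz)).1
    have h9 : (z + 1 / 2).re = z.re + 1 / 2 := by simp
    rw [h9] at h8
    linarith
  refine h1 q n ⟨fun z => -P (z + 1 / 2) - 1 / 2 * F2 (2 * z) -
    ∑' p, Dr (co T ω) 2 p (z + 1 / 2), ?_, ?_⟩
  · refine DifferentiableOn.sub (DifferentiableOn.sub (DifferentiableOn.neg ?_)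
      (DifferentiableOn.const_mul ?_ _)) ?_
    · exact hP1.comp (differentiableOn_id.add_const _) hbz
    · refine hF2.comp (differentiableOn_id.const_mul _) fun z hz => ?_
      have h8 := hbre z hz
      have h9 : (2 * z).re = 2 * z.re := by simp
      change 1 / 2 < (2 * z).re
      rw [h9]
      linarith
    · refine DifferentiableOn.comp (g := fun s => ∑' p, Dr (co T ω) 2 p s)
        (sum_Dr_diff (h.bdd ω) 2) (differentiableOn_id.add_const _) fun z hz => ?_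
      have h8 := (hgeo _ (hbz z hz)).1
      change 1 / 2 + 1 / ((2 : ℕ) + 1 : ℝ) < (z + 1 / 2).re
      push_cast
      norm_num
      norm_num at h8
      linarith
  · filter_upwards [Metric.isOpen_ball.mem_nhds
      (Metric.mem_ball_self one_pos : w' + 1 ∈ Metric.ball (w' + 1) 1)] with z hz
    have h8 : z + 1 / 2 ∈ Metric.ball (w' + 3 / 2) 1 := by
      rw [Metric.mem_ball, dist_eq_norm] at hz ⊢
      have : z + 1 / 2 - (w' + 3 / 2) = z - (w' + 1) := by ring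
      rwa [this]
    have h9 := hball h8
    have h10 : 3 / 2 < (z + 1 / 2).re := h9
    have h11 : (z + 1 / 2).re = z.re + 1 / 2 := by simp
    have h12 : 1 < z.re := by
      rw [h11] at h10
      linarith
    have h13 := h.decomp ω h12
    rw [hP2 _ h8, hG2 _ h9, h13, hF2' (2 * z) (by
      have : (2 * z).re = 2 * z.re := by simp
      rw [this]
      linarith)]
    ring

/-- **natural boundary** -/
theorem LocP.nat_mero (h : LocP μ T b v S P) :
    ∀ᵐ ω ∂μ, ∀ (w : ℂ) (r : ℝ), w.re = 1 → 0 < r →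
    ¬ ∃ F : ℂ → ℂ, MeromorphicOn F (HP 1 ∪ Metric.ball w r) ∧
      ∀ s, 3 / 2 < s.re → F s = Complex.exp (logL (co T ω) s) := by
  filter_upwards [h.cont, h.nat] with ω h1 h2
  rintro w r hw hr ⟨F, hF, hF2⟩
  obtain ⟨G, hG, hG2⟩ := h1
  obtain ⟨w', r', F', h3, h4, h5, h6⟩ := mero_to_holo hw hr hF hG fun s hs => by
    rw [hF2 s hs, hG2 s hs]
  refine h2 w' r' h3 h4 ⟨F', h5, fun s hs => ?_⟩
  rw [h6 s hs, hF2 s hs]

end Pool.Agent.P8H9.RP
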