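import Pool.Agent.P8H9.RD.Mero

/-! Natural boundary for random Dirichlet series over a set of primes with a divergent sum of
reciprocals. -/

set_option autoImplicit false

open Filter Topology Finset MeasureTheory ProbabilityTheory

namespace Pool.Agent.P8H9.RP

open Pool.Agent.P8H9.RD

/-- **divergence of the sum of the reciprocals of the primes**, in Taylor coefficients -/
theorem diverge {R : ℝ} (hR : 3 / 2 < R) (S : Finset Nat.Primes) {P : Set Nat.Primes}
    (hP : ¬ Summable fun p : P => 1 / (((p : Nat.Primes) : ℕ) : ℝ)) {K : ℝ}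
    {G : ℕ → ℝ} (hG : ∀ m : ℕ, ∀ T : Finset Nat.Primes, (∀ p ∈ T, p ∉ S ∧ p ∈ P) →
      ∑ p ∈ T, (Real.log (p : ℕ) ^ m / m.factorial * ((p : ℕ) : ℝ) ^ (-2 : ℝ)) ^ 2 ≤ G m)
    (h : ∀ m : ℕ, R ^ (2 * m) * G m ≤ K) : False := by
  have hR0 : 0 < R := by linarith
  set q : ℝ := 3 / (2 * R) with hq
  have hq0 : 0 < q := by positivity
  have hq1 : q < 1 := by
    rw [hq, div_lt_one (by positivity)]
    linarith
  have hqR : q * R = 3 / 2 := by
    rw [hq]
    field_simp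
  have hK : 0 ≤ K := by
    have h0 := h 0
    have h1 := hG 0 ∅ (by simp)
    simp only [sum_empty] at h1
    simp only [mul_zero, pow_zero, one_mul] at h0
    linarith
  have hgeo : ∀ M : ℕ, ∑ m ∈ range M, q ^ m ≤ (1 - q)⁻¹ := fun M =>
    (summable_geometric_of_lt_one hq0.le hq1).sum_le_tsum (range M)
      (fun _ _ => pow_nonneg hq0.le _) |>.trans_eq (tsum_geometric_of_lt_one hq0.le hq1)
  have hgeo0 : ∀ M : ℕ, 0 ≤ ∑ m ∈ range M, q ^ m := fun M =>
    sum_nonneg fun _ _ => pow_nonneg hq0.le _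
  have hinv : 0 < (1 - q)⁻¹ := inv_pos.2 (by linarith)
  have key : ∀ T : Finset Nat.Primes, (∀ p ∈ T, p ∉ S ∧ p ∈ P) →
      ∑ p ∈ T, 1 / ((p : ℕ) : ℝ) ≤ (1 - q)⁻¹ * ((1 - q)⁻¹ * K) := by
    intro T hT
    have h1 : Tendsto (fun M : ℕ => ∑ p ∈ T,
        (∑ m ∈ range M, (q * R * Real.log (p : ℕ)) ^ m / (m.factorial : ℝ)) ^ 2 *
        (((p : ℕ) : ℝ) ^ (-2 : ℝ)) ^ 2) atTop (𝓝 (∑ p ∈ T,
        (Real.exp (q * R * Real.log (p : ℕ))) ^ 2 * (((p : ℕ) : ℝ) ^ (-2 : ℝ)) ^ 2)) :=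
      tendsto_finsetSum _ fun p _ => ((exp_tendsto _).pow 2).mul_const _
    have h2 : ∑ p ∈ T, (Real.exp (q * R * Real.log (p : ℕ))) ^ 2 *
        (((p : ℕ) : ℝ) ^ (-2 : ℝ)) ^ 2 = ∑ p ∈ T, 1 / ((p : ℕ) : ℝ) := by
      refine sum_congr rfl fun p _ => ?_
      have hp : (0 : ℝ) < ((p : ℕ) : ℝ) := by exact_mod_cast p.2.pos
      rw [hqR]
      have e1 : Real.exp (3 / 2 * Real.log (p : ℕ)) = ((p : ℕ) : ℝ) ^ (3 / 2 : ℝ) := by
        rw [Real.rpow_def_of_pos hp, mul_comm]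
      rw [e1, ← mul_pow, ← Real.rpow_add hp, ← Real.rpow_natCast, ← Real.rpow_mul hp.le]
      norm_num
      exact Real.rpow_neg_one _
    rw [h2] at h1
    refine le_of_tendsto h1 (Eventually.of_forall fun M => ?_)
    have h3 : ∀ p ∈ T, (∑ m ∈ range M, (q * R * Real.log (p : ℕ)) ^ m / (m.factorial : ℝ)) ^ 2 *
        (((p : ℕ) : ℝ) ^ (-2 : ℝ)) ^ 2 ≤ (1 - q)⁻¹ * ∑ m ∈ range M, q ^ m * (R ^ (2 * m) *
          (Real.log (p : ℕ) ^ m / m.factorial * ((p : ℕ) : ℝ) ^ (-2 : ℝ)) ^ 2) := by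
      intro p _
      have e1 := sum_sq_le_sum_mul_sum_of_sq_le_mul (range M)
        (r := fun m => (q * R * Real.log (p : ℕ)) ^ m / (m.factorial : ℝ))
        (f := fun m => q ^ m)
        (g := fun m => q ^ m * ((R * Real.log (p : ℕ)) ^ m / (m.factorial : ℝ)) ^ 2)
        (fun m _ => by positivity) (fun m _ => by positivity) (fun m _ => by
          rw [mul_assoc q R, mul_pow]
          exact le_of_eq (by ring))
      have e2 : (∑ m ∈ range M, (q * R * Real.log (p : ℕ)) ^ m / (m.factorial : ℝ)) ^ 2 ≤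
          (1 - q)⁻¹ * ∑ m ∈ range M, q ^ m *
            ((R * Real.log (p : ℕ)) ^ m / (m.factorial : ℝ)) ^ 2 :=
        e1.trans (mul_le_mul_of_nonneg_right (hgeo M) (sum_nonneg fun _ _ => by positivity))
      have e3 := mul_le_mul_of_nonneg_right e2 (sq_nonneg (((p : ℕ) : ℝ) ^ (-2 : ℝ)))
      refine e3.trans_eq ?_
      rw [mul_assoc, sum_mul]
      congr 1
      refine sum_congr rfl fun m _ => ?_
      rw [mul_pow R, pow_mul R 2 m, ← pow_mul, mul_comm 2 m, pow_mul]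
      ring
    refine (sum_le_sum h3).trans ?_
    rw [← mul_sum, sum_comm]
    refine mul_le_mul_of_nonneg_left ?_ hinv.le
    have h4 : ∀ m ∈ range M, ∑ p ∈ T, q ^ m * (R ^ (2 * m) *
        (Real.log (p : ℕ) ^ m / m.factorial * ((p : ℕ) : ℝ) ^ (-2 : ℝ)) ^ 2) ≤ q ^ m * K := by
      intro m _
      rw [← mul_sum, ← mul_sum]
      refine mul_le_mul_of_nonneg_left ?_ (by positivity)
      exact (mul_le_mul_of_nonneg_left (hG m T hT) (by positivity)).trans (h m)
    refine (sum_le_sum h4).trans ?_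
    rw [← sum_mul]
    exact mul_le_mul_of_nonneg_right (hgeo M) hK
  apply hP
  classical
  have hs : Summable fun p : {p : P // (p : Nat.Primes) ∉ S} =>
      1 / ((((p : P) : Nat.Primes) : ℕ) : ℝ) := by
    refine summable_of_sum_le (c := (1 - q)⁻¹ * ((1 - q)⁻¹ * K)) (fun p => by positivity) fun u => ?_
    have := key (u.map ⟨fun p => p.1.1, fun a b hab => by
      have h : a.1.1 = b.1.1 := hab
      apply Subtype.ext
      apply Subtype.ext
      exact h⟩) (by
      intro a ha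
      rw [Finset.mem_map] at ha
      obtain ⟨b, -, rfl⟩ := ha
      exact ⟨b.2, b.1.2⟩)
    rw [sum_map] at this
    exact this
  have hfin : {p : P | (p : Nat.Primes) ∈ S}.Finite :=
    Set.Finite.preimage (f := fun p : P => (p : Nat.Primes)) (fun a _ b _ h => Subtype.ext h)
      S.finite_toSet
  have h5 := (hfin.toFinset.summable_compl_iff (f := fun p : P => 1 / (((p : Nat.Primes) : ℕ) : ℝ))).1
  refine h5 ?_
  have e : ∀ p : P, p ∉ hfin.toFinset ↔ (p : Nat.Primes) ∉ S := fun p => by simp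
  exact (Equiv.subtypeEquivRight e).summable_iff.2 hs

theorem summable_rcP {z₀ : ℂ} (hz : z₀.re = 2) (m : ℕ) (S : Finset Nat.Primes) (P : Set Nat.Primes) (f : ℂ → ℝ)
    (hf : ∀ z, |f z| ≤ ‖z‖) [∀ p, Decidable (p ∈ S ∨ p ∉ P)] :
    Summable fun p => |if p ∈ S ∨ p ∉ P then 0 else f (cf z₀ m p)| := by
  refine (summable_cf hz m).of_nonneg_of_le (fun _ => abs_nonneg _) fun p => ?_
  split_ifs
  · rw [abs_zero]
    exact norm_nonneg _
  · exact hf _

/-- **the event has probability zero** -/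
theorem Ev_zeroP {Ω : Type*} [MeasurableSpace Ω] {μ : Measure Ω} [IsProbabilityMeasure μ]
    {X : Nat.Primes → Ω → ℝ} {C : ℝ} (h : Cen μ X C) {v : ℝ} (hv0 : 0 < v)
    {S : Finset Nat.Primes} {P : Set Nat.Primes}
    (hP : ¬ Summable fun p : P => 1 / (((p : Nat.Primes) : ℕ) : ℝ))
    (hv : ∀ p ∉ S, p ∈ P → v ≤ ∫ ω, X p ω ^ 2 ∂μ) (hX0 : ∀ p ∉ S, p ∉ P → ∀ ω, X p ω = 0)
    {z₀ : ℂ} (hz : z₀.re = 2)
    {R : ℝ} (hR : 3 / 2 < R) (g : ℕ → ℂ) : μ (Ev X z₀ R g) = 0 := by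
  classical
  have hR0 : 0 < R := by linarith
  have hC := h.pos
  rcases zero_one h hz hR0.le g with h0 | h0
  · exact h0
  exfalso
  rw [Ev_cut h.pos.le h.bd hz hR0.le g S] at h0
  -- a level of large measure
  have hcm : ∀ p, Measurable (cut S X p) := by
    intro p
    by_cases hp : p ∈ S
    · have : cut S X p = fun _ => 0 := by
        funext ω
        unfold cut
        rw [if_pos hp]
      rw [this]
      exact measurable_const
    · have : cut S X p = X p := by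
        funext ω
        unfold cut
        rw [if_neg hp]
      rw [this]
      exact h.meas p
  have hcb : ∀ p ω, |cut S X p ω| ≤ C := fun p ω => cut_bd h.pos.le (fun p => h.bd p ω) S p
  have hmono : Monotone (EvK (cut S X) z₀ R g) := by
    intro K L hKL ω hω m
    exact (hω m).trans (by exact_mod_cast hKL)
  have hlim := tendsto_measure_iUnion_atTop (μ := μ) hmono
  change Tendsto _ atTop (𝓝 (μ (Ev (cut S X) z₀ R g))) at hlim
  rw [h0] at hlim
  set δ : ℝ := v ^ 2 / (96 * C ^ 4) with hδ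
  have hδ0 : 0 < δ := by positivity
  have hlim2 : Tendsto (fun K => μ.real (EvK (cut S X) z₀ R g K)) atTop (𝓝 1) := by
    have := (ENNReal.tendsto_toReal ENNReal.one_ne_top).comp hlim
    rw [ENNReal.toReal_one] at this
    exact this
  obtain ⟨K, hK⟩ := ((tendsto_order.1 hlim2).1 (1 - δ) (by linarith)).exists
  have hmE : MeasurableSet (EvK (cut S X) z₀ R g K) := meas_EvK hcm hcb hz R g K
  -- the key consequence
  have hkey : ∀ m : ℕ, ∀ f : ℂ → ℝ, (∀ z, |f z| ≤ ‖z‖) → (∀ z w, f (z + w) = f z + f w) →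
      (∀ (x : ℝ) (z : ℂ), f (x * z) = x * f z) → Continuous f →
      v * (∑' p, (if p ∈ S ∨ p ∉ P then 0 else f (cf z₀ m p)) ^ 2) / 2 * R ^ (2 * m) ≤ (K : ℝ) ^ 2 := by
    intro m f hf hadd hmul hcont
    set a : Nat.Primes → ℝ := fun p => if p ∈ S ∨ p ∉ P then 0 else f (cf z₀ m p) with ha
    have has : Summable fun p => |a p| := summable_rcP hz m S P f hf
    have hsq := summable_sq has
    rcases (tsum_nonneg fun p => sq_nonneg (a p) : 0 ≤ ∑' p, a p ^ 2).eq_or_lt with hW | hW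
    · rw [← hW]
      simp
    have hpz := h.pz hv0 has (fun p hp => hv p (fun hpS => hp (by rw [ha]; simp [hpS]))
      (by
        by_contra hpP
        exact hp (by rw [ha]; simp [hpP]))) hW (f (g m))
    set A : Set Ω := {ω | v * (∑' p, a p ^ 2) / 2 ≤ (∑' p, a p * X p ω + f (g m)) ^ 2} with hA
    have hex : (A ∩ EvK (cut S X) z₀ R g K).Nonempty := by
      by_contra hcon
      rw [Set.not_nonempty_iff_eq_empty, ← Set.disjoint_iff_inter_eq_empty] at hcon
      have e1 := measureReal_union (μ := μ) hcon hmE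
      have e2 : μ.real (A ∪ EvK (cut S X) z₀ R g K) ≤ 1 := measureReal_le_one
      linarith
    obtain ⟨ω, hω1, hω2⟩ := hex
    have h1 : v * (∑' p, a p ^ 2) / 2 ≤ (∑' p, a p * X p ω + f (g m)) ^ 2 := hω1
    have h2 : ‖Sm (cut S X) z₀ m ω + g m‖ * R ^ m ≤ K := hω2 m
    have h3 : ∑' p, a p * X p ω = f (Sm (cut S X) z₀ m ω) := by
      have hsum := (summable_term (fun p => hcb p ω) hz m).hasSum
      have h4 : HasSum (fun p => f ((cut S X p ω : ℂ) * cf z₀ m p)) (f (Sm (cut S X) z₀ m ω)) :=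
        hsum.map (AddMonoidHom.mk' f hadd) hcont
      rw [← h4.tsum_eq]
      refine tsum_congr fun p => ?_
      rw [hmul, ha]
      unfold cut
      dsimp only
      by_cases hpS : p ∈ S
      · simp [hpS]
      · by_cases hpP : p ∈ P
        · rw [if_neg (not_or.2 ⟨hpS, not_not.2 hpP⟩), if_neg hpS]
          ring
        · rw [if_pos (Or.inr hpP), if_neg hpS, hX0 p hpS hpP ω]
          simp
    rw [h3, ← hadd] at h1
    have h5 : (f (Sm (cut S X) z₀ m ω + g m)) ^ 2 ≤ ‖Sm (cut S X) z₀ m ω + g m‖ ^ 2 := by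
      rw [← sq_abs]
      exact pow_le_pow_left₀ (abs_nonneg _) (hf _) 2
    have h6 : (‖Sm (cut S X) z₀ m ω + g m‖ * R ^ m) ^ 2 ≤ (K : ℝ) ^ 2 :=
      pow_le_pow_left₀ (by positivity) h2 2
    calc v * (∑' p, a p ^ 2) / 2 * R ^ (2 * m) ≤ ‖Sm (cut S X) z₀ m ω + g m‖ ^ 2 * R ^ (2 * m) :=
          mul_le_mul_of_nonneg_right (h1.trans h5) (by positivity)
      _ = (‖Sm (cut S X) z₀ m ω + g m‖ * R ^ m) ^ 2 := by rw [mul_pow, ← pow_mul, mul_comm m 2]
      _ ≤ (K : ℝ) ^ 2 := h6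
  have hre : ∀ z : ℂ, |Complex.re z| ≤ ‖z‖ := Complex.abs_re_le_norm
  have him : ∀ z : ℂ, |Complex.im z| ≤ ‖z‖ := Complex.abs_im_le_norm
  refine diverge hR S hP (K := 4 * (K : ℝ) ^ 2 / v) (G := fun m =>
    ∑' p, (if p ∈ S ∨ p ∉ P then 0 else (cf z₀ m p).re) ^ 2 +
    ∑' p, (if p ∈ S ∨ p ∉ P then 0 else (cf z₀ m p).im) ^ 2) (fun m T hT => ?_) fun m => ?_
  · have s1 := summable_sq (summable_rcP hz m S P Complex.re hre)
    have s2 := summable_sq (summable_rcP hz m S P Complex.im him)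
    rw [← s1.tsum_add s2]
    have e : ∑ p ∈ T, (Real.log (p : ℕ) ^ m / m.factorial * ((p : ℕ) : ℝ) ^ (-2 : ℝ)) ^ 2 =
        ∑ p ∈ T, ((if p ∈ S ∨ p ∉ P then 0 else (cf z₀ m p).re) ^ 2 +
          (if p ∈ S ∨ p ∉ P then 0 else (cf z₀ m p).im) ^ 2) := by
      refine sum_congr rfl fun p hp => ?_
      have hpS : ¬ (p ∈ S ∨ p ∉ P) := not_or.2 ⟨(hT p hp).1, not_not.2 (hT p hp).2⟩
      rw [if_neg hpS, if_neg hpS, ← norm_cf hz m p, ← Complex.normSq_eq_norm_sq,
        Complex.normSq_apply]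
      ring
    rw [e]
    exact (s1.add s2).sum_le_tsum T fun p _ => add_nonneg (sq_nonneg _) (sq_nonneg _)
  · have k1 := hkey m Complex.re hre Complex.add_re (fun x z => by simp) Complex.continuous_re
    have k2 := hkey m Complex.im him Complex.add_im (fun x z => by simp) Complex.continuous_im
    rw [le_div_iff₀ hv0]
    linarith

/-- **the event that the series continues is null** -/
theorem no_contP {Ω : Type*} [MeasurableSpace Ω] {μ : Measure Ω} [IsProbabilityMeasure μ]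
    {X : Nat.Primes → Ω → ℝ} {C : ℝ} (h : Cen μ X C) {v : ℝ} (hv0 : 0 < v)
    {S : Finset Nat.Primes} {P : Set Nat.Primes}
    (hP : ¬ Summable fun p : P => 1 / (((p : Nat.Primes) : ℕ) : ℝ))
    (hv : ∀ p ∉ S, p ∈ P → v ≤ ∫ ω, X p ω ^ 2 ∂μ) (hX0 : ∀ p ∉ S, p ∉ P → ∀ ω, X p ω = 0)
    (M : ℂ → ℂ) {z₀ : ℂ}
    (hz : z₀.re = 2) {R : ℝ} (hR : 3 / 2 < R) :
    ∀ᵐ ω ∂μ, ¬ ∃ F : ℂ → ℂ, DifferentiableOn ℂ F (Metric.ball z₀ R) ∧
      ∀ᶠ z in 𝓝 z₀, F z = ∑' p : Nat.Primes, (X p ω : ℂ) * ((p : ℕ) : ℂ) ^ (-z) + M z := by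
  set R' : ℝ := (3 / 2 + R) / 2 with hR'
  have hR1 : 3 / 2 < R' := by rw [hR']; linarith
  have hR2 : R' < R := by rw [hR']; linarith
  have hR0 : 0 < R' := by linarith
  set g : ℕ → ℂ := fun m => (-1) ^ m * iteratedDeriv m M z₀ / m.factorial with hg
  have h0 := h.pos
  have hnull := Ev_zeroP h hv0 hP hv hX0 hz hR1 g
  rw [← compl_mem_ae_iff] at hnull
  filter_upwards [hnull] with ω hω
  rintro ⟨F, hF, hFe⟩
  apply hω
  have hb : ∀ p, |X p ω| ≤ C := fun p => h.bd p ω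
  have hball : Metric.closedBall z₀ R' ⊆ Metric.ball z₀ R := Metric.closedBall_subset_ball hR2
  have hFb : DiffContOnCl ℂ F (Metric.ball z₀ R') :=
    (hF.mono hball).diffContOnCl_ball subset_rfl
  obtain ⟨B, hB⟩ := (isCompact_closedBall z₀ R').exists_bound_of_continuousOn
    (hF.mono hball).continuousOn
  have hder : ∀ m : ℕ, ‖iteratedDeriv m F z₀‖ ≤ m.factorial * B / R' ^ m := fun m =>
    Complex.norm_iteratedDeriv_le_of_forall_mem_sphere_norm_le m hR0 hFb
      fun z hz => hB z (Metric.sphere_subset_closedBall hz)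
  -- the expansion
  set L : ℂ → ℂ := LSeries (seq fun p => X p ω) with hL
  have hLe : ∀ᶠ z in 𝓝 z₀, F z = L z + M z := by
    filter_upwards [hFe] with z hz
    rw [hz, hL, seq_LSeries]
  have hLd : AnalyticAt ℂ L z₀ := by
    have hopen : IsOpen {z : ℂ | 1 < z.re} := isOpen_lt continuous_const Complex.continuous_re
    have hz0 : z₀ ∈ {z : ℂ | 1 < z.re} := by
      change 1 < z₀.re
      rw [hz]
      norm_num
    have hd : DifferentiableOn ℂ L {z : ℂ | 1 < z.re} := by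
      intro z hz'
      have hz1 : 1 < z.re := hz'
      refine (LSeries_hasDerivAt ?_).differentiableAt.differentiableWithinAt
      have h2 : LSeriesSummable (seq fun p => X p ω) (((1 + z.re) / 2 : ℝ) : ℂ) :=
        seq_summable hb (by
          rw [Complex.ofReal_re]
          linarith)
      refine h2.abscissaOfAbsConv_le.trans_lt ?_
      rw [Complex.ofReal_re]
      exact_mod_cast (by linarith : (1 + z.re) / 2 < z.re)
    exact hd.analyticAt (hopen.mem_nhds hz0)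
  have hFa : AnalyticAt ℂ F z₀ := hF.analyticAt (Metric.ball_mem_nhds z₀ (by linarith))
  have hMe : M =ᶠ[𝓝 z₀] fun z => F z - L z := by
    filter_upwards [hLe] with z hz
    rw [hz]
    ring
  have hiter : ∀ m : ℕ, iteratedDeriv m F z₀ = iteratedDeriv m L z₀ + iteratedDeriv m M z₀ := by
    intro m
    rw [hMe.iteratedDeriv_eq m]
    have h1 : iteratedDeriv m (fun z => F z - L z) z₀ =
        iteratedDeriv m F z₀ - iteratedDeriv m L z₀ :=
      iteratedDeriv_fun_sub (hFa.contDiffAt (n := m)) (hLd.contDiffAt (n := m))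
    rw [h1]
    ring
  obtain ⟨K, hK⟩ := exists_nat_ge B
  refine Set.mem_iUnion.2 ⟨K, fun m => ?_⟩
  have hf : (m.factorial : ℂ) ≠ 0 := by exact_mod_cast m.factorial_ne_zero
  have hf' : (0 : ℝ) < m.factorial := by exact_mod_cast m.factorial_pos
  have h1 : Sm X z₀ m ω + g m = (-1) ^ m * iteratedDeriv m F z₀ / m.factorial := by
    rw [hiter m, hL, iter_series hb hz m, hg]
    unfold Sm
    have e : ((-1 : ℂ) ^ m) * ((-1) ^ m) = 1 := by
      rw [← mul_pow]
      norm_num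
    rw [mul_add, add_div, ← mul_assoc, e, one_mul]
    congr 1
    field_simp
  rw [h1, norm_div, norm_mul, norm_pow, norm_neg, norm_one, one_pow, one_mul, Complex.norm_natCast]
  have h2 := hder m
  rw [le_div_iff₀ (pow_pos hR0 m)] at h2
  rw [div_mul_eq_mul_div, div_le_iff₀ hf']
  refine h2.trans ?_
  rw [mul_comm]
  exact mul_le_mul_of_nonneg_right hK hf'.le

end Pool.Agent.P8H9.RP
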